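import Pool.Agent.N602.RR.Final1

/-!
# MP_2781e4_lc, Q1: the optimal averaged-condition-number exponent `p*(n²)` is `0`

The model (`Pool.Agent.N602.RR.Model`): programs over data built from real numbers, `nil` and
pairs, with the exact operations `+, -, *, /`, integer constants, the test `0 < x`, pairing and
projections, sequencing, branching and while loops. `Ev P x y t` says that `P` stops on `x` with
result `y` after exactly `t` steps; *every* operation (not only the arithmetic ones) costs a step.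
Inputs and outputs are plain lists of real numbers.
-/

set_option autoImplicit false

namespace Pool.Agent.Results.MP_2781e4_lc.ExponentZero

open Pool.Agent.N602.RR Matrix

/-- the `p`-averaged condition number of `A`, for `p ∈ (0, ∞]`; `sv A i` is the singular value
`σ_{i+1}` -/
noncomputable def avgCond {n : ℕ} (A : Matrix (Fin n) (Fin n) ℝ) (p : ENNReal) : ℝ :=
  if p = ⊤ then sv A 0 / sv A (n - 1)
  else ((1 / (n : ℝ)) * ∑ i ∈ Finset.range n, (sv A i / sv A (n - 1)) ^ p.toReal) ^ (1 / p.toReal)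

/-- The exponent `p` is achievable with the cost measure `n²`: one (deterministic) program solves
every invertible `n × n` system to relative accuracy `ε` in `Õ(n² κ̄_p(A))` steps. -/
def Achievable (p : ENNReal) : Prop :=
  ∃ (P : Prog) (C : ℝ) (k : ℕ), ∀ (n : ℕ), 1 ≤ n → ∀ (A : Matrix (Fin n) (Fin n) ℝ), IsUnit A →
    ∀ (b : Fin n → ℝ) (ε : ℝ), 0 < ε → ε < 1 →
    ∃ (t : ℕ) (x : Fin n → ℝ), Ev P (input A b ε) (output x) t ∧
      nn (x - A⁻¹ *ᵥ b) ≤ ε * nn (A⁻¹ *ᵥ b) ∧
      (t : ℝ) ≤ C * (1 + Real.log (n / ε)) ^ k * (n ^ 2 * avgCond A p)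

/-- the optimal exponent `p*(n²)` -/
noncomputable def pStar : ENNReal := sInf {p : ENNReal | 0 < p ∧ Achievable p}

theorem log_sum {n : ℕ} (hn : 1 ≤ n) (A : Matrix (Fin n) (Fin n) ℝ) (hA : IsUnit A) (p : ENNReal)
    (hp : 0 < p) : ∃ c : ℝ, 0 ≤ c ∧ (c = 1 / p.toReal) ∧
      1 ≤ avgCond A p ∧ Real.log (condN A) ≤ c * Real.log n + Real.log (avgCond A p) := by
  have hn1 : (1 : ℝ) ≤ n := by exact_mod_cast hn
  have hlogn : 0 ≤ Real.log n := Real.log_nonneg hn1
  have hcond := cond_ge_one hn A hA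
  have hσ := sv_pos hn A hA
  refine ⟨1 / p.toReal, by positivity, rfl, ?_⟩
  by_cases h : p = ⊤
  · subst h
    have e : avgCond A ⊤ = condN A := by simp [avgCond, condN]
    rw [e]
    refine ⟨hcond, ?_⟩
    simp
  · have hpr : 0 < p.toReal := ENNReal.toReal_pos hp.ne' h
    set r := p.toReal with hr
    set S : ℝ := (1 / (n : ℝ)) * ∑ i ∈ Finset.range n, (sv A i / sv A (n - 1)) ^ r with hS
    have e : avgCond A p = S ^ (1 / r) := by
      unfold avgCond
      rw [if_neg h]
    have hterm : ∀ i ∈ Finset.range n, 1 ≤ (sv A i / sv A (n - 1)) ^ r := fun i hi => by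
      refine Real.one_le_rpow ?_ hpr.le
      rw [le_div_iff₀ hσ, one_mul]
      exact sv_antitone A (by have := Finset.mem_range.mp hi; omega)
    have hS1 : 1 ≤ S := by
      have h1 : (n : ℝ) ≤ ∑ i ∈ Finset.range n, (sv A i / sv A (n - 1)) ^ r := by
        calc (n : ℝ) = ∑ _i ∈ Finset.range n, (1 : ℝ) := by simp
          _ ≤ _ := Finset.sum_le_sum hterm
      rw [hS, one_div, ← div_eq_inv_mul, le_div_iff₀ (by positivity), one_mul]
      exact h1
    have hS2 : (1 / (n : ℝ)) * condN A ^ r ≤ S := by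
      rw [hS]
      refine mul_le_mul_of_nonneg_left ?_ (by positivity)
      exact Finset.single_le_sum (f := fun i => (sv A i / sv A (n - 1)) ^ r)
        (fun i hi => by have := hterm i hi; linarith) (Finset.mem_range.mpr (show 0 < n by omega))
    rw [e]
    refine ⟨Real.one_le_rpow hS1 (by positivity), ?_⟩
    rw [Real.log_rpow (by linarith)]
    have h2 : Real.log ((1 / (n : ℝ)) * condN A ^ r) ≤ Real.log S :=
      Real.log_le_log (by positivity) hS2
    rw [Real.log_mul (by positivity) (by positivity), Real.log_rpow (by linarith), one_div,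
      Real.log_inv] at h2
    have h3 : r * Real.log (condN A) ≤ Real.log n + Real.log S := by linarith
    calc Real.log (condN A) = 1 / r * (r * Real.log (condN A)) := by field_simp
      _ ≤ 1 / r * (Real.log n + Real.log S) := mul_le_mul_of_nonneg_left h3 (by positivity)
      _ = _ := by ring

theorem achievable (p : ENNReal) (hp : 0 < p) : Achievable p := by
  obtain ⟨P, C, hC, h⟩ := solver
  refine ⟨P, 27 * C * (2 + 1 / p.toReal) ^ 3, 3, fun n hn A hA b ε hε0 hε1 => ?_⟩
  obtain ⟨t, x, h1, h2, h3⟩ := h n hn A hA b ε hε0 hε1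
  refine ⟨t, x, h1, h2, h3.trans ?_⟩
  obtain ⟨c, hc0, hc, hκ1, hlog⟩ := log_sum hn A hA p hp
  rw [← hc]
  have hn1 : (1 : ℝ) ≤ n := by exact_mod_cast hn
  have hlogn : 0 ≤ Real.log n := Real.log_nonneg hn1
  have hcond := cond_ge_one hn A hA
  set κ := avgCond A p with hκ
  have hlogκ : 0 ≤ Real.log κ := Real.log_nonneg hκ1
  have hloge : 0 ≤ Real.log (1 / ε) := Real.log_nonneg (by rw [le_div_iff₀ hε0]; linarith)
  have e1 : Real.log (n * condN A / ε) = Real.log n + Real.log (condN A) + Real.log (1 / ε) := by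
    rw [div_eq_mul_one_div, Real.log_mul (by positivity) (by positivity),
      Real.log_mul (by positivity) (by positivity)]
  have e2 : Real.log (n / ε) = Real.log n + Real.log (1 / ε) := by
    rw [div_eq_mul_one_div, Real.log_mul (by positivity) (by positivity)]
  have hcn0 : 0 ≤ Real.log (condN A) := Real.log_nonneg hcond
  have e3 : 1 + Real.log (n * condN A / ε) ≤ (2 + c) * (1 + Real.log (n / ε)) * (1 + Real.log κ) := by
    rw [e1, e2]
    have hb : 0 ≤ Real.log n + Real.log (1 / ε) := by positivity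
    have hcn : c * Real.log n ≤ c * (Real.log n + Real.log (1 / ε)) :=
      mul_le_mul_of_nonneg_left (by linarith) hc0
    have hprod : 0 ≤ c * ((1 + (Real.log n + Real.log (1 / ε))) * Real.log κ) := by positivity
    have hprod2 : 0 ≤ (Real.log n + Real.log (1 / ε)) * Real.log κ := by positivity
    nlinarith
  have e4 : 1 + Real.log κ ≤ 3 * κ ^ ((1 : ℝ) / 3) := by
    have h5 : Real.log κ = 3 * Real.log (κ ^ ((1 : ℝ) / 3)) := by
      rw [Real.log_rpow (by linarith)]; ring
    have h6 : 0 < κ ^ ((1 : ℝ) / 3) := Real.rpow_pos_of_pos (by linarith) _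
    have h7 := Real.log_le_sub_one_of_pos h6
    rw [h5]; linarith
  have e5 : (1 + Real.log κ) ^ 3 ≤ 27 * κ := by
    calc (1 + Real.log κ) ^ 3 ≤ (3 * κ ^ ((1 : ℝ) / 3)) ^ 3 :=
          pow_le_pow_left₀ (by positivity) e4 3
      _ = 27 * (κ ^ ((1 : ℝ) / 3)) ^ 3 := by ring
      _ = 27 * κ := by
          rw [← Real.rpow_natCast, ← Real.rpow_mul (by linarith)]
          norm_num
  have hpos : 0 ≤ Real.log (n * condN A / ε) := by rw [e1]; positivity
  have e6 : (1 + Real.log (n * condN A / ε)) ^ 3 ≤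
      ((2 + c) * (1 + Real.log (n / ε)) * (1 + Real.log κ)) ^ 3 :=
    pow_le_pow_left₀ (by linarith) e3 3
  have hb2 : 0 ≤ Real.log (n / ε) := by rw [e2]; positivity
  calc C * n ^ 2 * (1 + Real.log (n * condN A / ε)) ^ 3
      ≤ C * n ^ 2 * ((2 + c) * (1 + Real.log (n / ε)) * (1 + Real.log κ)) ^ 3 :=
        mul_le_mul_of_nonneg_left e6 (by positivity)
    _ = C * n ^ 2 * (2 + c) ^ 3 * (1 + Real.log (n / ε)) ^ 3 * (1 + Real.log κ) ^ 3 := by ring
    _ ≤ C * n ^ 2 * (2 + c) ^ 3 * (1 + Real.log (n / ε)) ^ 3 * (27 * κ) :=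
        mul_le_mul_of_nonneg_left e5 (by positivity)
    _ = _ := by ring

/-- **`p*(n²) = 0`.** One deterministic program solves every invertible system `A x = b` of size
`n ≥ 1` to relative accuracy `ε` in at most `C n² (1 + log (n σ₁/(σ_n ε)))³` steps, the program
and `C` being absolute. Consequently every exponent `p ∈ (0, ∞]` is achievable with the cost
measure `n²`, and `p*(n²) = 0`. -/
theorem result :
    (∃ (P : Prog) (C : ℝ), ∀ (n : ℕ), 1 ≤ n → ∀ (A : Matrix (Fin n) (Fin n) ℝ), IsUnit A →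
      ∀ (b : Fin n → ℝ) (ε : ℝ), 0 < ε → ε < 1 →
      ∃ (t : ℕ) (x : Fin n → ℝ), Ev P (input A b ε) (output x) t ∧
        nn (x - A⁻¹ *ᵥ b) ≤ ε * nn (A⁻¹ *ᵥ b) ∧
        (t : ℝ) ≤ C * n ^ 2 * (1 + Real.log (n * (sv A 0 / sv A (n - 1)) / ε)) ^ 3) ∧
    (∀ p : ENNReal, 0 < p → Achievable p) ∧ pStar = 0 := by
  refine ⟨?_, achievable, ?_⟩
  · obtain ⟨P, C, _, h⟩ := solver
    exact ⟨P, C, h⟩
  · have : {p : ENNReal | 0 < p ∧ Achievable p} = Set.Ioi 0 := by
      ext p
      simp only [Set.mem_ofPred_eq, Set.mem_Ioi]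
      exact ⟨fun h => h.1, fun h => ⟨h, achievable p h⟩⟩
    unfold pStar
    rw [this]
    exact nonpos_iff_eq_zero.mp (le_of_forall_gt_imp_ge_of_dense fun a ha => sInf_le ha)

end Pool.Agent.Results.MP_2781e4_lc.ExponentZero
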